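import Mathlib
import Pool.Agent.Helper6.SmpBase

/-!
The strong maximum principle for `Δ u ≤ V u` with `V^{1/2} ∈ L^p`, `p < 2`, fails in every
dimension `N ≥ 1`.
-/

namespace Pool.Agent.Results.MP_1d8377_an.StrongMaxFails

open SMP MeasureTheory Set Filter Topology
open scoped ContDiff

/-- The Laplacian on `ℝ^N`: the sum of the second partial derivatives.  The `i`-th summand is the
second derivative, at `s = x i`, of the function `s ↦ φ(x₁, …, x_{i-1}, s, x_{i+1}, …)`. -/
noncomputable def lap {N : ℕ} (φ : (Fin N → ℝ) → ℝ) (x : Fin N → ℝ) : ℝ :=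
  ∑ i, iteratedDeriv 2 (fun s : ℝ => φ (Function.update x i s)) (x i)

noncomputable def ind (x : ℝ) : ℝ := (Icc (-1 : ℝ) 1).indicator (fun _ => 1) x

lemma ind_meas : Measurable ind := measurable_const.indicator measurableSet_Icc

lemma ind_nonneg (x : ℝ) : 0 ≤ ind x := by
  unfold ind; apply Set.indicator_nonneg; intros; norm_num

lemma ind_integrable : Integrable ind := by
  unfold ind
  rw [integrable_indicator_iff measurableSet_Icc]
  exact integrableOn_const (by simp) (by simp)

lemma ind_eq_one {x : ℝ} (h : |x| ≤ 1) : ind x = 1 := by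
  unfold ind
  rw [Set.indicator_of_mem]
  exact abs_le.mp h

lemma ind_eq_zero {x : ℝ} (h : ¬ |x| ≤ 1) : ind x = 0 := by
  unfold ind
  rw [Set.indicator_of_notMem]
  intro h'
  exact h (abs_le.mpr h')

section
variable {N : ℕ}

/-- the counterexample function -/
noncomputable def U (x : Fin N → ℝ) : ℝ := ∏ i, u1 (x i)

/-- the potential -/
noncomputable def VV (x : Fin N → ℝ) : ℝ := (∑ i, v (x i)) * ∏ j, ind (x j)

/-- the `i`-th piece of `V u` -/
noncomputable def RR (i : Fin N) (x : Fin N → ℝ) : ℝ :=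
  ∏ j, (if j = i then w else u1) (x j)

lemma u1_integrable : Integrable u1 := by
  apply u1_cont.integrable_of_hasCompactSupport
  apply HasCompactSupport.intro (isCompact_Icc (a := (-1 : ℝ)) (b := 1))
  intro x hx
  apply u1_zero
  by_contra h
  push Not at h
  exact hx ⟨(abs_lt.mp h).1.le, (abs_lt.mp h).2.le⟩

lemma U_cont : Continuous (U (N := N)) := by
  unfold U
  exact continuous_finsetProd _ fun i _ => u1_cont.comp (continuous_apply i)

lemma U_nonneg (x : Fin N → ℝ) : 0 ≤ U x := Finset.prod_nonneg fun i _ => u1_nonneg _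

lemma U_zero {x : Fin N → ℝ} {i : Fin N} (h : ¬ |x i| < 1) : U x = 0 := by
  unfold U
  exact Finset.prod_eq_zero (Finset.mem_univ i) (u1_zero (not_lt.mp h))

lemma U_compact : HasCompactSupport (U (N := N)) := by
  apply HasCompactSupport.intro (isCompact_univ_pi fun _ : Fin N => isCompact_Icc (a := (-1 : ℝ)) (b := 1))
  intro x hx
  simp only [Set.mem_pi, Set.mem_univ, true_implies, not_forall] at hx
  obtain ⟨i, hi⟩ := hx
  apply U_zero (i := i)
  intro h
  exact hi ⟨(abs_lt.mp h).1.le, (abs_lt.mp h).2.le⟩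

lemma VV_nonneg (x : Fin N → ℝ) : 0 ≤ VV x :=
  mul_nonneg (Finset.sum_nonneg fun i _ => v_nonneg _) (Finset.prod_nonneg fun i _ => ind_nonneg _)

lemma VV_meas : Measurable (VV (N := N)) := by
  unfold VV
  apply Measurable.mul
  · exact Finset.measurable_sum _ fun i _ => v_meas.comp (measurable_pi_apply i)
  · exact Finset.measurable_prod _ fun i _ => ind_meas.comp (measurable_pi_apply i)

lemma RR_eq (i : Fin N) (x : Fin N → ℝ) : RR i x = v (x i) * U x := by
  unfold RR U
  rw [← Finset.mul_prod_erase _ _ (Finset.mem_univ i), ← Finset.mul_prod_erase Finset.univ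
    (fun i => u1 (x i)) (Finset.mem_univ i)]
  rw [if_pos rfl, ← mul_assoc, v_mul_u1]
  congr 1
  apply Finset.prod_congr rfl
  intro j hj
  rw [if_neg (Finset.ne_of_mem_erase hj)]

lemma VV_mul_U (x : Fin N → ℝ) : VV x * U x = ∑ i, RR i x := by
  by_cases h : ∀ i, |x i| ≤ 1
  · have : ∏ j, ind (x j) = 1 := Finset.prod_eq_one fun j _ => ind_eq_one (h j)
    unfold VV
    rw [this, mul_one, Finset.sum_mul]
    exact Finset.sum_congr rfl fun i _ => (RR_eq i x).symm
  · push Not at h
    obtain ⟨i, hi⟩ := h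
    have hU : U x = 0 := U_zero (i := i) (by linarith)
    rw [hU, mul_zero]
    symm
    apply Finset.sum_eq_zero
    intro j _
    rw [RR_eq, hU, mul_zero]

lemma RR_integrable (i : Fin N) : Integrable (RR i) := by
  unfold RR
  apply Integrable.fintype_prod (f := fun j => if j = i then w else u1)
  intro j
  split_ifs
  · exact w_integrable
  · exact u1_integrable

lemma VV_sqrt_integrable (p : ℝ) (hp1 : 1 ≤ p) (hp2 : p < 2) :
    Integrable (fun x : Fin N → ℝ => Real.sqrt (VV x) ^ p) := by
  have hp0 : 0 ≤ p := by linarith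
  set Q : Fin N → (Fin N → ℝ) → ℝ := fun i x =>
    ∏ j, (if j = i then fun s => Real.sqrt (v s) ^ p * ind s else ind) (x j) with hQ
  have hQi : ∀ i, Integrable (Q i) := by
    intro i
    apply Integrable.fintype_prod
      (f := fun j => if j = i then fun s => Real.sqrt (v s) ^ p * ind s else ind)
    intro j
    split_ifs
    · apply (sqrt_v_integrable p hp1 hp2).mul_bdd (c := 1)
      · exact ind_meas.aestronglyMeasurable
      · apply Eventually.of_forall
        intro x
        by_cases h : |x| ≤ 1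
        · rw [ind_eq_one h]; simp
        · rw [ind_eq_zero h]; simp
    · exact ind_integrable
  have hQv : ∀ i x, Q i x = Real.sqrt (v (x i)) ^ p * ∏ j, ind (x j) := by
    intro i x
    rw [hQ]
    simp only
    rw [← Finset.mul_prod_erase _ _ (Finset.mem_univ i), ← Finset.mul_prod_erase Finset.univ
      (fun i => ind (x i)) (Finset.mem_univ i)]
    rw [if_pos rfl, mul_assoc]
    congr 2
    apply Finset.prod_congr rfl
    intro j hj
    rw [if_neg (Finset.ne_of_mem_erase hj)]
  have hsum : Integrable (fun x => Real.sqrt N ^ p * ∑ i, Q i x) :=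
    (integrable_finsetSum _ fun i _ => hQi i).const_mul _
  apply hsum.mono'
  · exact ((Real.continuous_sqrt.measurable.comp VV_meas).pow_const p).aestronglyMeasurable
  · apply Eventually.of_forall
    intro x
    rw [Real.norm_of_nonneg (Real.rpow_nonneg (Real.sqrt_nonneg _) _)]
    simp_rw [hQv]
    rw [← Finset.sum_mul]
    by_cases h : ∀ i, |x i| ≤ 1
    · have h1 : ∏ j, ind (x j) = 1 := Finset.prod_eq_one fun j _ => ind_eq_one (h j)
      unfold VV
      rw [h1, mul_one, mul_one]
      rcases Nat.eq_zero_or_pos N with hN | hN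
      · subst hN
        simp
        rw [Real.zero_rpow (by linarith)]
      · haveI : Nonempty (Fin N) := ⟨⟨0, hN⟩⟩
        obtain ⟨k, _, hk⟩ := Finset.exists_max_image Finset.univ (fun i => v (x i))
          Finset.univ_nonempty
        have h2 : ∑ i, v (x i) ≤ (N : ℝ) * v (x k) := by
          calc ∑ i, v (x i) ≤ ∑ _i : Fin N, v (x k) :=
                Finset.sum_le_sum fun i hi => hk i hi
            _ = _ := by simp
        calc Real.sqrt (∑ i, v (x i)) ^ p ≤ Real.sqrt ((N : ℝ) * v (x k)) ^ p := by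
              apply Real.rpow_le_rpow (Real.sqrt_nonneg _) (Real.sqrt_le_sqrt h2) hp0
          _ = Real.sqrt N ^ p * Real.sqrt (v (x k)) ^ p := by
              rw [Real.sqrt_mul (Nat.cast_nonneg N), Real.mul_rpow (Real.sqrt_nonneg _)
                (Real.sqrt_nonneg _)]
          _ ≤ Real.sqrt N ^ p * ∑ i, Real.sqrt (v (x i)) ^ p := by
              apply mul_le_mul_of_nonneg_left _ (Real.rpow_nonneg (Real.sqrt_nonneg _) _)
              exact Finset.single_le_sum (f := fun i => Real.sqrt (v (x i)) ^ p)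
                (fun i _ => Real.rpow_nonneg (Real.sqrt_nonneg _) _) (Finset.mem_univ k)
    · push Not at h
      obtain ⟨i, hi⟩ := h
      have h1 : ∏ j, ind (x j) = 0 :=
        Finset.prod_eq_zero (Finset.mem_univ i) (ind_eq_zero (not_le.mpr hi))
      unfold VV
      rw [h1, mul_zero, Real.sqrt_zero, Real.zero_rpow (by linarith)]
      simp

end

/-! ### the weak inequality -/

lemma slice_contDiff {N : ℕ} (φ : (Fin N → ℝ) → ℝ) (hφ : ContDiff ℝ ∞ φ) (x : Fin N → ℝ)
    (i : Fin N) : ContDiff ℝ ∞ (fun s : ℝ => φ (Function.update x i s)) := by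
  apply hφ.comp
  rw [contDiff_pi]
  intro j
  by_cases h : j = i
  · subst h; simp only [Function.update_self]; exact contDiff_id
  · simp only [Function.update_of_ne h]; exact contDiff_const

lemma slice_second {N : ℕ} (φ : (Fin N → ℝ) → ℝ) (hφ : ContDiff ℝ ∞ φ) (x : Fin N → ℝ)
    (i : Fin N) (t : ℝ) :
    deriv (deriv (fun s : ℝ => φ (Function.update x i s))) t
      = fderiv ℝ (fun y => fderiv ℝ φ y (Pi.single i 1)) (Function.update x i t)
          (Pi.single i 1) := by
  have h1 : deriv (fun s : ℝ => φ (Function.update x i s))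
      = fun s => fderiv ℝ φ (Function.update x i s) (Pi.single i 1) := by
    funext s
    have hd : HasFDerivAt φ (fderiv ℝ φ (Function.update x i s)) (Function.update x i s) :=
      ((hφ.differentiable (by simp)) _).hasFDerivAt
    exact (hd.comp_hasDerivAt s (hasDerivAt_update x i s)).deriv
  rw [h1]
  have hg : ContDiff ℝ ∞ (fun y => fderiv ℝ φ y (Pi.single i (1 : ℝ))) :=
    (hφ.fderiv_right (by simp)).clm_apply contDiff_const
  have hd : HasFDerivAt (fun y => fderiv ℝ φ y (Pi.single i (1 : ℝ)))
      (fderiv ℝ (fun y => fderiv ℝ φ y (Pi.single i (1 : ℝ))) (Function.update x i t))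
      (Function.update x i t) := ((hg.differentiable (by simp)) _).hasFDerivAt
  exact (hd.comp_hasDerivAt t (hasDerivAt_update x i t)).deriv

/-- second partial derivative along coordinate `i` -/
noncomputable def D2 {N : ℕ} (i : Fin N) (φ : (Fin N → ℝ) → ℝ) (x : Fin N → ℝ) : ℝ :=
  iteratedDeriv 2 (fun s : ℝ => φ (Function.update x i s)) (x i)

lemma D2_eq {N : ℕ} (i : Fin N) (φ : (Fin N → ℝ) → ℝ) (x : Fin N → ℝ) :
    D2 i φ x = deriv (deriv (fun s : ℝ => φ (Function.update x i s))) (x i) := by
  unfold D2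
  rw [iteratedDeriv_succ, iteratedDeriv_one]

lemma D2_cont {N : ℕ} (i : Fin N) (φ : (Fin N → ℝ) → ℝ) (hφ : ContDiff ℝ ∞ φ) :
    Continuous (D2 i φ) := by
  have : D2 i φ = fun x => fderiv ℝ (fun y => fderiv ℝ φ y (Pi.single i 1)) x
      (Pi.single i 1) := by
    funext x
    rw [D2_eq, slice_second φ hφ, Function.update_eq_self]
  rw [this]
  have hg : ContDiff ℝ ∞ (fun y => fderiv ℝ φ y (Pi.single i (1 : ℝ))) :=
    (hφ.fderiv_right (by simp)).clm_apply contDiff_const
  have hg2 : ContDiff ℝ ∞ (fun x => fderiv ℝ (fun y => fderiv ℝ φ y (Pi.single i (1 : ℝ))) x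
      (Pi.single i (1 : ℝ))) := (hg.fderiv_right (by simp)).clm_apply contDiff_const
  exact hg2.continuous

lemma coord_ineq {n : ℕ} (i : Fin (n + 1)) (φ : (Fin (n + 1) → ℝ) → ℝ) (hφ : ContDiff ℝ ∞ φ)
    (hcs : HasCompactSupport φ) (h0 : ∀ x, 0 ≤ φ x) :
    ∫ x, U x * D2 i φ x ≤ ∫ x, RR i x * φ x := by
  have hmp := (volume_preserving_piFinSuccAbove (fun _ : Fin (n + 1) => ℝ) i).symm
  have hG1 : Integrable (fun x : Fin (n + 1) → ℝ => U x * D2 i φ x) :=
    (U_cont.mul (D2_cont i φ hφ)).integrable_of_hasCompactSupport U_compact.mul_right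
  have hG2 : Integrable (fun x : Fin (n + 1) → ℝ => RR i x * φ x) := by
    obtain ⟨C, hC⟩ := hcs.exists_bound_of_continuous hφ.continuous
    exact (RR_integrable i).mul_bdd (c := C) hφ.continuous.aestronglyMeasurable
      (Eventually.of_forall hC)
  rw [← hmp.integral_comp' (fun x => U x * D2 i φ x), ← hmp.integral_comp' (fun x => RR i x * φ x)]
  have hG1' := (hmp.integrable_comp_of_integrable hG1)
  have hG2' := (hmp.integrable_comp_of_integrable hG2)
  have hsymm : ∀ z : ℝ × (Fin n → ℝ),
      (MeasurableEquiv.piFinSuccAbove (fun _ : Fin (n + 1) => ℝ) i).symm z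
        = i.insertNth z.1 z.2 := by
    intro z; rfl
  have e1 := integral_prod_symm _ hG1'
  have e2 := integral_prod_symm _ hG2'
  simp only [Function.comp_def] at e1 e2
  change ∫ z : ℝ × (Fin n → ℝ), _ ∂(volume.prod volume) ≤
    ∫ z : ℝ × (Fin n → ℝ), _ ∂(volume.prod volume)
  rw [e1, e2]
  apply integral_mono
  · exact hG1'.integral_prod_right
  · exact hG2'.integral_prod_right
  · intro y
    simp only [hsymm]
    have hsl : ∀ s : ℝ, ∀ t : ℝ, Function.update (i.insertNth (α := fun _ => ℝ) s y) i t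
        = i.insertNth (α := fun _ => ℝ) t y := by
      intro s t
      exact Fin.update_insertNth (α := fun _ => ℝ) i s t y
    set f : ℝ → ℝ := fun t => φ (i.insertNth (α := fun _ => ℝ) t y) with hf
    have hfc : ContDiff ℝ ∞ f := by
      have := slice_contDiff φ hφ (i.insertNth (α := fun _ => ℝ) 0 y) i
      simpa only [hsl] using this
    have hf2 : ContDiff ℝ 2 f := by exact_mod_cast (contDiff_infty.mp hfc 2)
    have hfcs : HasCompactSupport f := by
      -- support is bounded
      obtain ⟨R, hR⟩ := (hcs.isCompact.isBounded).subset_closedBall 0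
      apply HasCompactSupport.intro (isCompact_Icc (a := -R) (b := R))
      intro t ht
      rw [hf]
      simp only
      by_contra hne
      have hmem : i.insertNth (α := fun _ => ℝ) t y ∈ tsupport φ :=
        subset_tsupport _ (Function.mem_support.mpr hne)
      have h1 := hR hmem
      rw [mem_closedBall_zero_iff] at h1
      have h2 := (norm_le_pi_norm (i.insertNth (α := fun _ => ℝ) t y) i).trans h1
      rw [Fin.insertNth_apply_same, Real.norm_eq_abs] at h2
      exact ht (abs_le.mp h2)
    have hf0 : ∀ t, 0 ≤ f t := fun t => h0 _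
    have key := one_dim_ineq f hf2 hfcs hf0
    have hD : ∀ s, D2 i φ (i.insertNth (α := fun _ => ℝ) s y) = deriv (deriv f) s := by
      intro s
      rw [D2_eq, Fin.insertNth_apply_same]
      simp only [hsl]
      rfl
    have hU : ∀ s, U (i.insertNth (α := fun _ => ℝ) s y) = u1 s * ∏ j, u1 (y j) := by
      intro s
      unfold U
      rw [Fin.prod_univ_succAbove _ i, Fin.insertNth_apply_same]
      congr 1
      apply Finset.prod_congr rfl
      intro j _
      rw [Fin.insertNth_apply_succAbove]
    have hR : ∀ s, RR i (i.insertNth (α := fun _ => ℝ) s y) = w s * ∏ j, u1 (y j) := by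
      intro s
      unfold RR
      rw [Fin.prod_univ_succAbove _ i, Fin.insertNth_apply_same, if_pos rfl]
      congr 1
      apply Finset.prod_congr rfl
      intro j _
      rw [Fin.insertNth_apply_succAbove, if_neg (Fin.succAbove_ne i j)]
    have hP : 0 ≤ ∏ j, u1 (y j) := Finset.prod_nonneg fun j _ => u1_nonneg _
    simp only [hD, hU, hR]
    calc ∫ s, u1 s * (∏ j, u1 (y j)) * deriv (deriv f) s
        = (∏ j, u1 (y j)) * ∫ s, u1 s * deriv (deriv f) s := by
          rw [← integral_const_mul]
          congr 1; funext s; ring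
      _ ≤ (∏ j, u1 (y j)) * ∫ s, w s * f s := mul_le_mul_of_nonneg_left key hP
      _ = ∫ s, w s * (∏ j, u1 (y j)) * φ (i.insertNth (α := fun _ => ℝ) s y) := by
          rw [← integral_const_mul]
          congr 1; funext s; rw [hf]; ring

/-- **The strong maximum principle fails.**  In every dimension `N ≥ 1` there are a measurable
`V ≥ 0` on `ℝ^N` with `V^{1/2} ∈ L^p(ℝ^N)` for all `p ∈ [1,2)` at once, and a continuous,
nonnegative, compactly supported, not identically zero `u` with `V u ∈ L¹(ℝ^N)` and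
`Δ u ≤ V u` in the sense of distributions on `ℝ^N`. -/
theorem result (N : ℕ) (hN : 1 ≤ N) :
    ∃ V u : (Fin N → ℝ) → ℝ,
      Measurable V ∧ (∀ x, 0 ≤ V x) ∧
      (∀ p : ℝ, 1 ≤ p → p < 2 → Integrable (fun x => Real.sqrt (V x) ^ p)) ∧
      Continuous u ∧ Integrable u ∧ (∀ x, 0 ≤ u x) ∧ HasCompactSupport u ∧ (∃ x, u x ≠ 0) ∧
      Integrable (fun x => V x * u x) ∧
      (∀ φ : (Fin N → ℝ) → ℝ, ContDiff ℝ ∞ φ → HasCompactSupport φ → (∀ x, 0 ≤ φ x) →
        ∫ x, u x * lap φ x ≤ ∫ x, V x * u x * φ x) := by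
  obtain ⟨n, rfl⟩ : ∃ n, N = n + 1 := ⟨N - 1, by omega⟩
  refine ⟨VV, U, VV_meas, VV_nonneg, VV_sqrt_integrable, U_cont,
    U_cont.integrable_of_hasCompactSupport U_compact, U_nonneg, U_compact, ?_, ?_, ?_⟩
  · refine ⟨0, ?_⟩
    have h0 : (0 : ℝ) < u1 0 := by
      have h := u1_lower (j := 0) (x := 0)
        (by rw [abs_zero]; exact add_nonneg (aa_nonneg 0) (ep_pos 0).le)
      exact lt_of_lt_of_le (by positivity) h
    unfold U
    exact (Finset.prod_pos fun i _ => h0).ne'
  · have : (fun x : Fin (n + 1) → ℝ => VV x * U x) = fun x => ∑ i, RR i x := by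
      funext x; exact VV_mul_U x
    rw [this]
    exact integrable_finsetSum _ fun i _ => RR_integrable i
  · intro φ hφ hcs h0
    have hbd := hcs.exists_bound_of_continuous hφ.continuous
    obtain ⟨C, hC⟩ := hbd
    have e1 : ∫ x, U x * lap φ x = ∑ i, ∫ x, U x * D2 i φ x := by
      rw [← integral_finsetSum]
      · congr 1; funext x
        unfold lap
        rw [Finset.mul_sum]
        rfl
      · intro i _
        exact (U_cont.mul (D2_cont i φ hφ)).integrable_of_hasCompactSupport U_compact.mul_right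
    have e2 : ∫ x, VV x * U x * φ x = ∑ i, ∫ x, RR i x * φ x := by
      rw [← integral_finsetSum]
      · congr 1; funext x
        rw [VV_mul_U, Finset.sum_mul]
      · intro i _
        exact (RR_integrable i).mul_bdd (c := C) hφ.continuous.aestronglyMeasurable
          (Eventually.of_forall hC)
    rw [e1, e2]
    exact Finset.sum_le_sum fun i _ => coord_ineq i φ hφ hcs h0

end Pool.Agent.Results.MP_1d8377_an.StrongMaxFails
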